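import Pool.Agent.helper23.TH.Spec

/-!
# Module LB: lower bound for theta graphs, assembly
-/

set_option autoImplicit false

open scoped BigOperators Topology
open Filter

namespace Pool.Agent.helper23.TH

open Classical in
theorem LB_card_sub {V : Type} [Fintype V] (U : Finset V) (Q : V → Prop) :
    ((Finset.univ : Finset {x // x ∈ U}).filter (fun w => Q w.1)).card = (U.filter Q).card := by
  rw [← Finset.card_map (Function.Embedding.subtype _)]
  congr 1
  ext x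
  simp only [Finset.mem_map, Finset.mem_filter, Finset.mem_univ, true_and,
    Function.Embedding.subtype_apply, Subtype.exists, exists_and_left, exists_prop,
    exists_eq_right_right]
  tauto

theorem LB_Ga_symm {V K : Type} {χ : V → V → K} (h : ∀ a b, χ a b = χ b a) (u w : V × V)
    (hg : Ga χ u w) : Ga χ w u := by
  obtain ⟨h1, h2, h3, h4, h5, h6, h7⟩ := hg
  exact ⟨h2, h1, h3.symm, h5.symm, h4.symm, h6.symm, by rw [h w.1 u.1, h w.2 u.2, h7]⟩

theorem LB_Re_symm {V : Type} (u w : V × V) (h : Re u w) : Re w u := by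
  unfold Re at h ⊢
  rcases h with h | h | h | h
  · exact Or.inl h.symm
  · exact Or.inr (Or.inr (Or.inl h.symm))
  · exact Or.inr (Or.inl h.symm)
  · exact Or.inr (Or.inr (Or.inr h.symm))

/-- the numerical part -/
theorem LB_num {n m : ℕ} {l C₁ c : ℝ} (hl : 1 ≤ l) (hC : 0 < C₁) (hn : 2 ≤ n) (hm : 0 < m)
    (hc1 : c ≤ 1 / 8) (hc2 : c * (8 * C₁) ≤ 1) (h : (m : ℝ) < c * (n : ℝ) ^ (2 - 2 / l)) :
    4 * (m : ℝ) ≤ n * (n - 1) ∧
      C₁ * ((n : ℝ) * n) ^ (1 + 1 / l) ≤ (n : ℝ) ^ 4 / (8 * m) := by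
  have hn' : (2 : ℝ) ≤ n := by exact_mod_cast hn
  have hn0 : (0 : ℝ) < n := by linarith
  have hm' : (0 : ℝ) < m := by exact_mod_cast hm
  have hl0 : 0 < l := by linarith
  have hp0 : 0 < (n : ℝ) ^ (2 - 2 / l) := Real.rpow_pos_of_pos hn0 _
  have hle : (n : ℝ) ^ (2 - 2 / l) ≤ (n : ℝ) ^ (2 : ℝ) := by
    apply Real.rpow_le_rpow_of_exponent_le (by linarith)
    have : 0 < 2 / l := by positivity
    linarith
  have h2 : (n : ℝ) ^ (2 : ℝ) = (n : ℝ) ^ 2 := by
    rw [show (2 : ℝ) = ((2 : ℕ) : ℝ) by norm_num, Real.rpow_natCast]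
  constructor
  · have h3 : (m : ℝ) ≤ 1 / 8 * (n : ℝ) ^ 2 := by
      calc (m : ℝ) ≤ c * (n : ℝ) ^ (2 - 2 / l) := h.le
        _ ≤ 1 / 8 * (n : ℝ) ^ (2 - 2 / l) := by gcongr
        _ ≤ 1 / 8 * (n : ℝ) ^ 2 := by rw [← h2]; gcongr
    nlinarith
  · rw [le_div_iff₀ (by positivity)]
    have e1 : ((n : ℝ) * n) ^ (1 + 1 / l) = (n : ℝ) ^ (2 + 2 / l) := by
      rw [← pow_two, ← Real.rpow_natCast (n : ℝ) 2, ← Real.rpow_mul hn0.le]
      congr 1
      push_cast
      ring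
    have e2 : (n : ℝ) ^ (2 + 2 / l) * (n : ℝ) ^ (2 - 2 / l) = (n : ℝ) ^ 4 := by
      rw [← Real.rpow_add hn0, ← Real.rpow_natCast (n : ℝ) 4]
      congr 1
      push_cast
      ring
    have hq0 : 0 < (n : ℝ) ^ (2 + 2 / l) := Real.rpow_pos_of_pos hn0 _
    rw [e1]
    calc C₁ * (n : ℝ) ^ (2 + 2 / l) * (8 * m)
        ≤ C₁ * (n : ℝ) ^ (2 + 2 / l) * (8 * (c * (n : ℝ) ^ (2 - 2 / l))) := by
          gcongr
      _ = c * (8 * C₁) * ((n : ℝ) ^ (2 + 2 / l) * (n : ℝ) ^ (2 - 2 / l)) := by ring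
      _ = c * (8 * C₁) * (n : ℝ) ^ 4 := by rw [e2]
      _ ≤ 1 * (n : ℝ) ^ 4 := by gcongr
      _ = (n : ℝ) ^ 4 := one_mul _

theorem LB : LBfrom_stmt := by
  intro hRGL hEC hFP hTR l p hl hp
  obtain ⟨k, rfl⟩ : ∃ k, l = k + 1 := ⟨l - 1, by omega⟩
  obtain ⟨K, hK, hR⟩ := hRGL (k + 1) (by omega)
  obtain ⟨C₂, hC₂, hF⟩ := hFP k p 4 K (by omega) hp hK
  obtain ⟨C₁, hC₁, hR⟩ := hR C₂ hC₂
  refine ⟨min (1 / 8) (1 / (8 * C₁)), by positivity, 2, ?_⟩
  intro n hn m χ hχ hT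
  by_contra hcon
  rw [not_le] at hcon
  have hm : 0 < m := by
    have : Fin n := ⟨0, by omega⟩
    exact (χ this this).pos
  obtain ⟨h4, hnum⟩ := LB_num (l := ((k + 1 : ℕ) : ℝ)) (C₁ := C₁) (by exact_mod_cast (by omega))
    hC₁ hn hm (min_le_left _ _)
    (by
      calc min (1 / 8) (1 / (8 * C₁)) * (8 * C₁) ≤ 1 / (8 * C₁) * (8 * C₁) := by
            gcongr; exact min_le_right _ _
        _ = 1 := by field_simp) hcon
  have hE := hEC.1 n m χ hχ hn h4
  have hcard : (Fintype.card (Fin n × Fin n) : ℝ) = (n : ℝ) * n := by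
    rw [Fintype.card_prod, Fintype.card_fin]; push_cast; ring
  obtain ⟨U, hU, hU1, hU2⟩ := hR (Fin n × Fin n) (Ga χ) (fun u v h => LB_Ga_symm hχ.symm u v h)
    (by rw [Fintype.card_prod, Fintype.card_fin]; positivity)
    (by rw [hcard]; exact le_trans hnum hE)
  have hdg : ∀ v : {x // x ∈ U},
      dg (fun a b : {x // x ∈ U} => Ga χ a.1 b.1) Finset.univ v = dg (Ga χ) U v.1 := by
    intro v
    unfold dg
    exact LB_card_sub U (fun w => Ga χ v.1 w)
  have hsum : (∑ v : {x // x ∈ U},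
      (dg (fun a b : {x // x ∈ U} => Ga χ a.1 b.1) Finset.univ v : ℝ)) =
        ∑ v ∈ U, (dg (Ga χ) U v : ℝ) := by
    rw [← Finset.sum_coe_sort U]
    exact Finset.sum_congr rfl fun v _ => by rw [hdg v]
  have hcU : (Fintype.card {x // x ∈ U} : ℝ) = U.card := by
    rw [Fintype.card_coe]
  obtain ⟨P, hP1, hP2, hP3, hP4⟩ := hF {x // x ∈ U} (fun a b => Ga χ a.1 b.1)
    (fun a b => Re a.1 b.1) (fun u v h => LB_Ga_symm hχ.symm _ _ h)
    (fun u v h => LB_Re_symm _ _ h) (fun v => Or.inl rfl)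
    (by
      intro u v
      refine le_trans ?_ (hEC.2 (Fin n) (Fin m) χ hχ u.1 v.1)
      rw [← Finset.card_map (Function.Embedding.subtype _)]
      apply Finset.card_le_card
      intro x hx
      simp only [Finset.mem_map, Finset.mem_filter, Finset.mem_univ, true_and,
        Function.Embedding.subtype_apply, Subtype.exists] at hx
      obtain ⟨a, ha, h, rfl⟩ := hx
      simp only [Finset.mem_filter, Finset.mem_univ, true_and]
      exact h)
    (by rw [Fintype.card_coe]; exact hU.card_pos)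
    (by
      rw [hsum, hcU]
      have : (1 : ℝ) + 1 / ((k : ℝ) + 1) = 1 + 1 / ((k + 1 : ℕ) : ℝ) := by push_cast; ring
      rw [this]
      exact hU1)
    (by
      intro v
      rw [hsum, hcU, hdg v]
      exact hU2 v.1 v.2)
  apply hT
  exact hTR (Fin n) (Fin m) χ hχ.symm (k + 1) p hl (by omega) (fun t i => (P t i).1)
    (fun t i => hP1 t i)
    (fun t t' => ⟨congrArg Subtype.val (hP2 t t').1, congrArg Subtype.val (hP2 t t').2⟩)
    (fun t i j hij => hP3 t i j hij)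
    (fun t t' htt i j h1 h2 => hP4 t t' htt i j h1 h2)

end Pool.Agent.helper23.TH
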