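import Pool.Agent.helper9.TH.Spec

namespace Pool.Agent.helper55.TH

open Pool.Agent.helper9.TH

universe u

theorem ea_map {p : ℕ} {H G : Type u} [Group H] [Group G] (f : H →* G) {A : Subgroup H}
    (h : EA p A) : EA p (A.map f) := by
  refine ⟨?_, ?_⟩
  · rintro x ⟨a, ha, rfl⟩ y ⟨b, hb, rfl⟩
    rw [← map_mul, ← map_mul, h.1 a ha b hb]
  · rintro x ⟨a, ha, rfl⟩
    rw [← map_pow, h.2 a ha, map_one]

theorem ea_comap {p : ℕ} {H G : Type u} [Group H] [Group G] {f : H →* G}
    (hf : Function.Injective f) {B : Subgroup G} (h : EA p B) : EA p (B.comap f) := by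
  refine ⟨?_, ?_⟩
  · intro x hx y hy
    apply hf
    rw [map_mul, map_mul]
    exact h.1 (f x) hx (f y) hy
  · intro x hx
    apply hf
    rw [map_pow, map_one]
    exact h.2 (f x) hx

theorem maxEA_map {p : ℕ} {H G : Type u} [Group H] [Group G] {f : H →* G}
    (hf : Function.Injective f) {P A : Subgroup H} (h : MaxEA p P A) :
    MaxEA p (P.map f) (A.map f) := by
  obtain ⟨h1, h2, h3⟩ := h
  refine ⟨Subgroup.map_mono h1, ea_map f h2, fun B hB hEB => ?_⟩
  have hr : B ≤ f.range := hB.trans (Subgroup.map_le_range f P)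
  have hBm : (B.comap f).map f = B := Subgroup.map_comap_eq_self hr
  have hle : B.comap f ≤ P := by
    intro x hx
    obtain ⟨y, hy, hxy⟩ := hB hx
    exact hf hxy ▸ hy
  have h4 := h3 (B.comap f) hle (ea_comap hf hEB)
  rw [Subgroup.card_map_of_injective hf, ← hBm, Subgroup.card_map_of_injective hf]
  exact h4

theorem maxEA_comap {p : ℕ} {H G : Type u} [Group H] [Group G] {f : H →* G}
    (hf : Function.Injective f) {P : Subgroup H} {B : Subgroup G} (h : MaxEA p (P.map f) B) :
    MaxEA p P (B.comap f) ∧ (B.comap f).map f = B := by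
  obtain ⟨h1, h2, h3⟩ := h
  have hr : B ≤ f.range := h1.trans (Subgroup.map_le_range f P)
  have hBm : (B.comap f).map f = B := Subgroup.map_comap_eq_self hr
  refine ⟨⟨?_, ea_comap hf h2, fun A hA hEA => ?_⟩, hBm⟩
  · intro x hx
    obtain ⟨y, hy, hxy⟩ := h1 hx
    exact hf hxy ▸ hy
  · have h4 := h3 (A.map f) (Subgroup.map_mono hA) (ea_map f hEA)
    rw [Subgroup.card_map_of_injective hf] at h4
    rw [← Subgroup.card_map_of_injective (K := B.comap f) hf, hBm]
    exact h4

theorem jj_map {p : ℕ} {H G : Type u} [Group H] [Group G] {f : H →* G}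
    (hf : Function.Injective f) (P : Subgroup H) : JJ p (P.map f) = (JJ p P).map f := by
  apply le_antisymm
  · refine sSup_le fun B hB => ?_
    obtain ⟨h1, h2⟩ := maxEA_comap hf hB
    rw [← h2]
    exact Subgroup.map_mono (le_sSup h1)
  · rw [Subgroup.map_le_iff_le_comap]
    refine sSup_le fun A hA => ?_
    rw [← Subgroup.map_le_iff_le_comap]
    exact le_sSup (maxEA_map hf hA)

theorem oz_map {p : ℕ} {H G : Type u} [Group H] [Group G] {f : H →* G}
    (hf : Function.Injective f) (P : Subgroup H) : OZ p (P.map f) = (OZ p P).map f := by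
  ext x
  constructor
  · rintro ⟨⟨a, ha, rfl⟩, h2, h3⟩
    refine ⟨a, ⟨ha, ?_, fun y hy => ?_⟩, rfl⟩
    · apply hf
      rw [map_pow, map_one, h2]
    · apply hf
      rw [map_mul, map_mul]
      exact h3 (f y) (Subgroup.mem_map_of_mem f hy)
  · rintro ⟨a, ⟨h1, h2, h3⟩, rfl⟩
    refine ⟨Subgroup.mem_map_of_mem f h1, ?_, ?_⟩
    · rw [← map_pow, h2, map_one]
    · rintro y ⟨b, hb, rfl⟩
      rw [← map_mul, ← map_mul, h3 b hb]

theorem conj_inj {G : Type u} [Group G] (g : G) :
    Function.Injective ((MulAut.conj g : G ≃* G) : G →* G) :=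
  (MulAut.conj g).injective

theorem JBa : JBa_stmt.{u} := by
  refine ⟨?_, ?_, ?_, ?_, ?_, ?_⟩
  · intro p G _ P
    exact sSup_le fun A hA => hA.1
  · intro p G _ P x hx
    exact hx.1
  · intro p H G _ _ _ _ f P hf
    exact jj_map hf P
  · intro p H G _ _ _ _ f P hf
    exact oz_map hf P
  · intro p G _ _ P g hg
    rw [Subgroup.mem_normalizer_iff_map_conj_eq] at hg ⊢
    have h := jj_map (p := p) (conj_inj g) P
    rw [hg] at h
    exact h.symm
  · intro p G _ _ P g hg
    rw [Subgroup.mem_normalizer_iff_map_conj_eq] at hg ⊢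
    have h := oz_map (p := p) (conj_inj g) P
    rw [hg] at h
    exact h.symm

end Pool.Agent.helper55.TH
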